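import Mathlib

/-!
# A graph with a long hole, no clique cutset, no `K_{2,3}` induced minor, and many separators
-/

namespace Q109.MinSep

open SimpleGraph

/-- vertices: cycle, clique `C`, clique `D` -/
abbrev Vx (m k : ℕ) := Fin m ⊕ (Fin k ⊕ Fin k)

/-- adjacency -/
def adj (m k : ℕ) : Vx m k → Vx m k → Prop
  | .inl i, .inl j => (cycleGraph m).Adj i j
  | .inl _, .inr (.inl _) => True
  | .inr (.inl _), .inl _ => True
  | .inl i, .inr (.inr _) => i.1 ≤ 2
  | .inr (.inr _), .inl i => i.1 ≤ 2
  | .inr (.inl i), .inr (.inl j) => i ≠ j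
  | .inr (.inl i), .inr (.inr j) => i = j
  | .inr (.inr i), .inr (.inl j) => i = j
  | .inr (.inr i), .inr (.inr j) => i ≠ j

/-- the graph -/
def GG (m k : ℕ) : SimpleGraph (Vx m k) where
  Adj := adj m k
  symm := ⟨by
    rintro (i | i | i) (j | j | j) h <;> simp only [adj] at h ⊢
    · exact h.symm
    · exact h
    · exact Ne.symm h
    · exact h.symm
    · exact h
    · exact h.symm
    · exact Ne.symm h⟩
  loopless := ⟨by
    rintro (i | i | i) h <;> simp only [adj] at h
    · exact (cycleGraph m).loopless.irrefl i h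
    · exact h rfl
    · exact h rfl⟩

section
variable {m k : ℕ}

@[simp] theorem adj_hh (i j : Fin m) : (GG m k).Adj (.inl i) (.inl j) ↔ (cycleGraph m).Adj i j :=
  Iff.rfl
@[simp] theorem adj_hc (i : Fin m) (j : Fin k) : (GG m k).Adj (.inl i) (.inr (.inl j)) ↔ True :=
  Iff.rfl
@[simp] theorem adj_ch (i : Fin m) (j : Fin k) : (GG m k).Adj (.inr (.inl j)) (.inl i) ↔ True :=
  Iff.rfl
@[simp] theorem adj_hd (i : Fin m) (j : Fin k) :
    (GG m k).Adj (.inl i) (.inr (.inr j)) ↔ i.1 ≤ 2 := Iff.rfl
@[simp] theorem adj_dh (i : Fin m) (j : Fin k) :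
    (GG m k).Adj (.inr (.inr j)) (.inl i) ↔ i.1 ≤ 2 := Iff.rfl
@[simp] theorem adj_cc (i j : Fin k) :
    (GG m k).Adj (.inr (.inl i)) (.inr (.inl j)) ↔ i ≠ j := Iff.rfl
@[simp] theorem adj_dd (i j : Fin k) :
    (GG m k).Adj (.inr (.inr i)) (.inr (.inr j)) ↔ i ≠ j := Iff.rfl
@[simp] theorem adj_cd (i j : Fin k) :
    (GG m k).Adj (.inr (.inl i)) (.inr (.inr j)) ↔ i = j := Iff.rfl
@[simp] theorem adj_dc (i j : Fin k) :
    (GG m k).Adj (.inr (.inr i)) (.inr (.inl j)) ↔ i = j := Iff.rfl

theorem cyc_iff (hm : 3 ≤ m) (i j : Fin m) : (cycleGraph m).Adj i j ↔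
    (i.1 + 1 = j.1 ∨ j.1 + 1 = i.1 ∨ (i.1 = 0 ∧ j.1 + 1 = m) ∨ (j.1 = 0 ∧ i.1 + 1 = m)) := by
  have hs : ∀ u v : Fin m, (u - v).1 = 1 ↔ (v.1 + 1 = u.1 ∨ (u.1 = 0 ∧ v.1 + 1 = m)) := by
    intro u v
    have hu := u.2
    have hv := v.2
    rw [Fin.sub_def]
    simp only
    by_cases h : v.1 ≤ u.1
    · have e : m - v.1 + u.1 = (u.1 - v.1) + m := by omega
      rw [e, Nat.add_mod_right, Nat.mod_eq_of_lt (by omega)]
      omega
    · rw [Nat.mod_eq_of_lt (by omega)]
      omega
  rw [cycleGraph_adj', hs, hs]
  omega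

/-- the hole -/
theorem hole : ∃ S : Set (Vx m k), Nonempty ((GG m k).induce S ≃g cycleGraph m) := by
  refine ⟨Set.range Sum.inl, ⟨(SimpleGraph.Iso.symm ⟨Equiv.ofInjective _ Sum.inl_injective, ?_⟩)⟩⟩
  intro a b
  exact Iff.rfl

/-! ### No clique cutset -/

theorem no_clique_cutset (hm : 4 ≤ m) (hk : 2 ≤ k) (Q : Set (Vx m k))
    (hQ : (GG m k).IsClique Q) : ((GG m k).induce Qᶜ).Preconnected := by
  have key : ∃ r : (Qᶜ : Set (Vx m k)), ∀ v : (Qᶜ : Set (Vx m k)),
      ((GG m k).induce Qᶜ).Reachable v r := by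
    have h02 : (.inl ⟨0, by omega⟩ : Vx m k) ∉ Q ∨ (.inl ⟨2, by omega⟩ : Vx m k) ∉ Q := by
      by_contra hcon
      push Not at hcon
      have h := hQ hcon.1 hcon.2 (by simp)
      rw [adj_hh, cyc_iff (by omega)] at h
      simp only at h
      omega
    have step : ∀ {a b : Vx m k} (ha : a ∈ Qᶜ) (hb : b ∈ Qᶜ), (GG m k).Adj a b →
        ((GG m k).induce Qᶜ).Reachable ⟨a, ha⟩ ⟨b, hb⟩ := by
      intro a b ha hb hab
      have : ((GG m k).induce Qᶜ).Adj ⟨a, ha⟩ ⟨b, hb⟩ := hab
      exact this.reachable
    by_cases hC : ∃ i : Fin k, (.inr (.inl i) : Vx m k) ∉ Q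
    · obtain ⟨i, hi⟩ := hC
      refine ⟨⟨_, hi⟩, ?_⟩
      rintro ⟨v, hv⟩
      rcases v with j | j | j
      · exact step hv hi trivial
      · by_cases hij : j = i
        · subst hij; exact Reachable.refl _
        · exact step hv hi hij
      · rcases h02 with h | h
        · exact (step hv h (by simp)).trans (step h hi trivial)
        · exact (step hv h (by simp)).trans (step h hi trivial)
    · push Not at hC
      have hD : ∀ j : Fin k, (.inr (.inr j) : Vx m k) ∈ Qᶜ := by
        intro j hj
        obtain ⟨i, hij⟩ : ∃ i : Fin k, i ≠ j := by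
          by_cases h : j.1 = 0
          · exact ⟨⟨1, by omega⟩, fun e => by rw [← e] at h; simp at h⟩
          · exact ⟨⟨0, by omega⟩, fun e => by rw [← e] at h; simp at h⟩
        have := hQ (hC i) hj (by simp)
        simp only [adj_cd] at this
        exact hij this
      have d0 := hD ⟨0, by omega⟩
      refine ⟨⟨_, d0⟩, ?_⟩
      have hlow : ∀ i : Fin m, i.1 ≤ 2 → ∀ hv : (.inl i : Vx m k) ∈ Qᶜ,
          ((GG m k).induce Qᶜ).Reachable ⟨.inl i, hv⟩ ⟨_, d0⟩ :=
        fun i hi hv => step hv d0 hi
      have down : ∀ n : ℕ, ∀ hn : n < m, 2 ≤ n →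
          (∀ u : Fin m, 2 ≤ u.1 → u.1 ≤ n → (.inl u : Vx m k) ∉ Q) →
          ∀ hv : (.inl ⟨n, hn⟩ : Vx m k) ∈ Qᶜ,
            ((GG m k).induce Qᶜ).Reachable ⟨.inl ⟨n, hn⟩, hv⟩ ⟨_, d0⟩ := by
        intro n
        induction n with
        | zero => intro hn h2; omega
        | succ n ih =>
          intro hn h2 hfree hv
          by_cases h : n + 1 = 2
          · exact hlow _ (by simp only; omega) hv
          · have hv' : (.inl ⟨n, by omega⟩ : Vx m k) ∈ Qᶜ := hfree _ (by simp only; omega)
              (by simp only; omega)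
            refine (step hv hv' ?_).trans (ih (by omega) (by omega)
              (fun u h1 h2 => hfree u h1 (by omega)) hv')
            rw [adj_hh, cyc_iff (by omega)]
            simp
      have up : ∀ n : ℕ, ∀ i : Fin m, i.1 + 1 + n = m → 3 ≤ i.1 →
          (∀ u : Fin m, i.1 ≤ u.1 → (.inl u : Vx m k) ∉ Q) →
          (.inl ⟨0, by omega⟩ : Vx m k) ∉ Q →
          ∀ hv : (.inl i : Vx m k) ∈ Qᶜ,
            ((GG m k).induce Qᶜ).Reachable ⟨.inl i, hv⟩ ⟨_, d0⟩ := by
        intro n
        induction n with
        | zero =>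
          intro i hin h3 hfree h0 hv
          refine (step hv h0 ?_).trans (hlow _ (by simp) h0)
          rw [adj_hh, cyc_iff (by omega)]
          exact Or.inr (Or.inr (Or.inr ⟨rfl, by omega⟩))
        | succ n ih =>
          intro i hin h3 hfree h0 hv
          have hv' : (.inl ⟨i.1 + 1, by omega⟩ : Vx m k) ∈ Qᶜ := hfree _ (by simp)
          refine (step hv hv' ?_).trans (ih ⟨i.1 + 1, by omega⟩ (by simp only; omega)
            (by simp only; omega) (fun u h1 => hfree u (by simp only at h1; omega)) h0 hv')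
          rw [adj_hh, cyc_iff (by omega)]
          simp
      rintro ⟨v, hv⟩
      rcases v with i | j | j
      · by_cases hi : i.1 ≤ 2
        · exact hlow i hi hv
        · by_cases hfree : ∀ u : Fin m, 2 ≤ u.1 → u.1 ≤ i.1 → (.inl u : Vx m k) ∉ Q
          · exact down i.1 i.2 (by omega) hfree hv
          · push Not at hfree
            obtain ⟨q, hq2, hqi, hqQ⟩ := hfree
            have hqne : q.1 ≠ i.1 := by
              intro h
              have : q = i := Fin.ext h
              subst this
              exact hv hqQ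
            have hup : ∀ u : Fin m, i.1 ≤ u.1 → (.inl u : Vx m k) ∉ Q := by
              intro u hu huQ
              have hune : u.1 ≠ i.1 := by
                intro h
                have : u = i := Fin.ext h
                subst this
                exact hv huQ
              have h := hQ hqQ huQ (by
                intro h
                have : q = u := by simpa using h
                rw [this] at hqi
                omega)
              rw [adj_hh, cyc_iff (by omega)] at h
              have := u.2
              omega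
            have h0 : (.inl ⟨0, by omega⟩ : Vx m k) ∉ Q := by
              intro h0
              have h := hQ hqQ h0 (by
                intro h
                have : q = ⟨0, by omega⟩ := by simpa using h
                rw [this] at hq2
                simp at hq2)
              rw [adj_hh, cyc_iff (by omega)] at h
              simp only at h
              have := i.2
              omega
            have hi2 := i.2
            exact up (m - 1 - i.1) i (by omega) (by omega) hup h0 hv
      · exact absurd (hC j) hv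
      · by_cases hj : j = ⟨0, by omega⟩
        · subst hj; exact Reachable.refl _
        · exact step hv d0 hj
  obtain ⟨r, hr⟩ := key
  intro u v
  exact (hr u).trans (hr v).symm

end

end Q109.MinSep
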