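import Pool.Agent.Q109.MinSep.Graph

/-!
# No `K_{2,3}` induced minor
-/

namespace Q109.MinSep

open SimpleGraph

/-- a model of `K_{2,3}`: two branch sets `X 0, X 1`, three sets `W j` -/
structure Model {V : Type} (G : SimpleGraph V) (X : Fin 2 → Set V) (W : Fin 3 → Set V) :
    Prop where
  connX : ∀ i, (G.induce (X i)).Connected
  neW : ∀ j, (W j).Nonempty
  adjXW : ∀ i j, ∃ x ∈ X i, ∃ w ∈ W j, G.Adj x w
  nadjX : ∀ x ∈ X 0, ∀ y ∈ X 1, ¬ G.Adj x y ∧ x ≠ y
  nadjW : ∀ i j, i ≠ j → ∀ x ∈ W i, ∀ y ∈ W j, ¬ G.Adj x y ∧ x ≠ y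
  disjXW : ∀ i j, ∀ x ∈ X i, x ∉ W j

/-- a connected set on which `P` is not constant has a crossing edge -/
theorem crossing {V : Type} {G : SimpleGraph V} {S : Set V} (h : (G.induce S).Connected)
    (P : V → Prop) {a b : V} (ha : a ∈ S) (hb : b ∈ S) (hPa : P a) (hPb : ¬ P b) :
    ∃ u ∈ S, ∃ v ∈ S, G.Adj u v ∧ P u ∧ ¬ P v := by
  classical
  obtain ⟨p⟩ := h.preconnected ⟨a, ha⟩ ⟨b, hb⟩
  have key : ∀ (x y : S), (G.induce S).Walk x y → P x.1 → ¬ P y.1 →
      ∃ u ∈ S, ∃ v ∈ S, G.Adj u v ∧ P u ∧ ¬ P v := by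
    intro x y p
    induction p with
    | nil => intro h1 h2; exact absurd h1 h2
    | @cons u v w hadj _ ih =>
      intro h1 h2
      by_cases hv : P v.1
      · exact ih hv h2
      · exact ⟨u.1, u.2, v.1, v.2, hadj, h1, hv⟩
  exact key _ _ p hPa hPb

section
variable {m k : ℕ}

/-- positions of the cycle vertices with `h_0` moved to the end -/
def pos : Vx m k → ℕ
  | .inl i => if i.1 = 0 then m else i.1
  | .inr _ => 1

theorem pos_adj (hm : 4 ≤ m) (i j : Fin m) (hi : i.1 ≠ 1) (hj : j.1 ≠ 1)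
    (h : (cycleGraph m).Adj i j) :
    pos (.inl i : Vx m k) + 1 = pos (.inl j : Vx m k) ∨
      pos (.inl j : Vx m k) + 1 = pos (.inl i : Vx m k) := by
  rw [cyc_iff (by omega)] at h
  have := i.2
  have := j.2
  simp only [pos]
  split_ifs <;> omega

theorem pos_inj (hm : 4 ≤ m) (i j : Fin m) (hi : i.1 ≠ 1) (hj : j.1 ≠ 1)
    (h : pos (.inl i : Vx m k) = pos (.inl j : Vx m k)) : i = j := by
  have _ := hm
  have _ := hi
  have _ := hj
  have := i.2
  have := j.2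
  apply Fin.ext
  simp only [pos] at h
  split_ifs at h <;> omega

/-- the thick vertex `h_1` together with `D` -/
def thick : Vx m k → Prop
  | .inl i => i.1 = 1
  | .inr (.inl _) => False
  | .inr (.inr _) => True

theorem thick_adj {u v : Vx m k} (hu : thick u) (hv : thick v) (huv : u ≠ v) :
    (GG m k).Adj u v := by
  rcases u with i | i | i <;> rcases v with j | j | j <;> simp only [thick] at hu hv
  · exact absurd (congrArg Sum.inl (Fin.ext (hu.trans hv.symm))) huv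
  · rw [adj_hd]; omega
  · rw [adj_dh]; omega
  · rw [adj_dd]; exact fun h => huv (by rw [h])

/-- a branch set inside `D` is impossible -/
theorem not_in_D {X : Fin 2 → Set (Vx m k)} {W : Fin 3 → Set (Vx m k)} (hm : 4 ≤ m)
    (M : Model (GG m k) X W) (i : Fin 2) (hD : ∀ x ∈ X i, ∃ j, x = .inr (.inr j)) : False := by
  have h : ∀ j : Fin 3, ∃ w ∈ W j, (∃ a : Fin m, w = .inl a ∧ a.1 ≤ 2) ∨
      (∃ a : Fin k, w = .inr (.inl a)) ∨ (∃ a : Fin k, w = .inr (.inr a)) := by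
    intro j
    obtain ⟨x, hx, w, hw, hadj⟩ := M.adjXW i j
    obtain ⟨l, rfl⟩ := hD x hx
    refine ⟨w, hw, ?_⟩
    rcases w with a | a | a
    · exact Or.inl ⟨a, rfl, hadj⟩
    · exact Or.inr (Or.inl ⟨a, rfl⟩)
    · exact Or.inr (Or.inr ⟨a, rfl⟩)
  choose w hw hc using h
  have hn : ∀ i j, i ≠ j → ¬ (GG m k).Adj (w i) (w j) ∧ w i ≠ w j :=
    fun i j hij => M.nadjW i j hij _ (hw i) _ (hw j)
  have n01 := hn 0 1 (by decide)
  have n02 := hn 0 2 (by decide)
  have n12 := hn 1 2 (by decide)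
  rcases hc 0 with ⟨a, ha, ha'⟩ | ⟨a, ha⟩ | ⟨a, ha⟩ <;>
    rcases hc 1 with ⟨b, hb, hb'⟩ | ⟨b, hb⟩ | ⟨b, hb⟩ <;>
    rcases hc 2 with ⟨c, hc, hc'⟩ | ⟨c, hc⟩ | ⟨c, hc⟩ <;>
    rw [ha, hb] at n01 <;> rw [ha, hc] at n02 <;> rw [hb, hc] at n12 <;>
    simp only [adj_hh, adj_hc, adj_ch, adj_hd, adj_dh, adj_cc, adj_dd, ne_eq, not_true,
      false_and, not_not, Sum.inl.injEq, Sum.inr.injEq, not_le] at n01 n02 n12 <;>
    first
      | omega
      | exact n01.2 n01.1
      | exact n02.2 n02.1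
      | exact n12.2 n12.1
      | (rw [cyc_iff (by omega)] at n01 n02 n12
         have e1 : a.1 ≠ b.1 := fun h => n01.2 (Fin.ext h)
         have e2 : a.1 ≠ c.1 := fun h => n02.2 (Fin.ext h)
         have e3 : b.1 ≠ c.1 := fun h => n12.2 (Fin.ext h)
         omega)

/-- two of the three sets cannot lie in `D` -/
theorem no_C_in_W {X : Fin 2 → Set (Vx m k)} {W : Fin 3 → Set (Vx m k)}
    (M : Model (GG m k) X W) (j : Fin 3) (a : Fin k) (ha : .inr (.inl a) ∈ W j) : False := by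
  have h3 : ∀ j : Fin 3, ∃ p q : Fin 3, p ≠ j ∧ q ≠ j ∧ p ≠ q := by decide
  obtain ⟨p, q, hp, hq, hpq⟩ := h3 j
  have hD : ∀ l : Fin 3, l ≠ j → ∀ x ∈ W l, ∃ b, x = .inr (.inr b) := by
    intro l hl x hx
    have h := M.nadjW j l hl.symm _ ha x hx
    rcases x with b | b | b
    · exact absurd trivial h.1
    · exact absurd (fun e => h.2 (by rw [e])) h.1
    · exact ⟨b, rfl⟩
  obtain ⟨x, hx⟩ := M.neW p
  obtain ⟨y, hy⟩ := M.neW q
  obtain ⟨b, rfl⟩ := hD p hp x hx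
  obtain ⟨c, rfl⟩ := hD q hq y hy
  have h := M.nadjW p q hpq _ hx _ hy
  exact h.1 (fun e => h.2 (by rw [e]))

theorem no_C_in_X {X : Fin 2 → Set (Vx m k)} {W : Fin 3 → Set (Vx m k)} (hm : 4 ≤ m)
    (M : Model (GG m k) X W) (i : Fin 2) (a : Fin k) (ha : .inr (.inl a) ∈ X i) : False := by
  have h2 : ∀ i : Fin 2, i = 0 ∨ i = 1 := by decide
  have hor := h2 i
  rcases hor with rfl | rfl
  · apply not_in_D hm M 1
    intro x hx
    have h := M.nadjX _ ha x hx
    rcases x with b | b | b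
    · exact absurd trivial h.1
    · exact absurd (fun e => h.2 (by rw [e])) h.1
    · exact ⟨b, rfl⟩
  · apply not_in_D hm M 0
    intro x hx
    have h := M.nadjX x hx _ ha
    rcases x with b | b | b
    · exact absurd trivial h.1
    · exact absurd (fun e => h.2 (by rw [e])) h.1
    · exact ⟨b, rfl⟩

/-- a branch set avoiding the thick vertex is impossible -/
theorem thin {X : Fin 2 → Set (Vx m k)} {W : Fin 3 → Set (Vx m k)} (hm : 4 ≤ m)
    (M : Model (GG m k) X W) (i : Fin 2) (ht : ∀ x ∈ X i, ¬ thick x) : False := by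
  classical
  have hX : ∀ x ∈ X i, ∃ a : Fin m, x = .inl a ∧ a.1 ≠ 1 := by
    intro x hx
    have h := ht x hx
    rcases x with a | a | a
    · exact ⟨a, rfl, h⟩
    · exact (no_C_in_X hm M i a hx).elim
    · exact absurd trivial h
  -- minimal and maximal positions
  have hne : (X i).Nonempty := by
    obtain ⟨x⟩ := (M.connX i).nonempty
    exact ⟨x.1, x.2⟩
  obtain ⟨x₀, hx₀⟩ := hne
  have hmin : ∃ lo ∈ X i, ∀ x ∈ X i, pos lo ≤ pos x := by
    have hex : ∃ n, ∃ x ∈ X i, pos x = n := ⟨pos x₀, x₀, hx₀, rfl⟩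
    obtain ⟨x, hx, hxe⟩ := Nat.find_spec hex
    refine ⟨x, hx, fun y hy => ?_⟩
    rw [hxe]
    exact Nat.find_min' hex ⟨y, hy, rfl⟩
  obtain ⟨lo, hlo, hlo'⟩ := hmin
  have hposle : ∀ x ∈ X i, pos x ≤ m := by
    intro x hx
    obtain ⟨a, rfl, _⟩ := hX x hx
    have := a.2
    simp only [pos]
    split_ifs <;> omega
  have hmax : ∃ hi ∈ X i, ∀ x ∈ X i, pos x ≤ pos hi := by
    have hex : ∃ n, ∃ x ∈ X i, m - pos x = n := ⟨m - pos x₀, x₀, hx₀, rfl⟩
    obtain ⟨x, hx, hxe⟩ := Nat.find_spec hex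
    refine ⟨x, hx, fun y hy => ?_⟩
    have h1 := Nat.find_min' hex ⟨y, hy, rfl⟩
    have h2 := hposle x hx
    have h3 := hposle y hy
    omega
  obtain ⟨hi, hhi, hhi'⟩ := hmax
  -- the set is an interval
  have hint : ∀ b : Fin m, b.1 ≠ 1 → pos lo ≤ pos (.inl b : Vx m k) →
      pos (.inl b : Vx m k) ≤ pos hi → (.inl b : Vx m k) ∈ X i := by
    intro b hb h1 h2
    by_contra hcon
    have hne1 : ∀ x ∈ X i, pos x ≠ pos (.inl b : Vx m k) := by
      intro x hx he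
      obtain ⟨a, rfl, ha⟩ := hX x hx
      have := pos_inj hm a b ha hb he
      subst this
      exact hcon hx
    have hl := hne1 lo hlo
    have hh := hne1 hi hhi
    obtain ⟨u, hu, v, hv, huv, hPu, hPv⟩ := crossing (M.connX i)
      (fun x => pos x < pos (.inl b : Vx m k)) hlo hhi (by omega) (by omega)
    obtain ⟨a, rfl, ha⟩ := hX u hu
    obtain ⟨c, rfl, hc⟩ := hX v hv
    have h3 := pos_adj (k := k) hm a c ha hc huv
    have h4 := hne1 _ hv
    have h5 := hne1 _ hu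
    omega
  -- contacts
  have hcontact : ∀ j : Fin 3, ∃ w ∈ W j,
      ((thick w ∧ pos lo = 2) ∨ (¬ thick w ∧ (∃ b : Fin m, w = .inl b ∧ b.1 ≠ 1) ∧
        pos w + 1 = pos lo)) ∨
      ((thick w ∧ pos hi = m) ∨ (¬ thick w ∧ (∃ b : Fin m, w = .inl b ∧ b.1 ≠ 1) ∧
        pos w = pos hi + 1)) := by
    intro j
    obtain ⟨x, hx, w, hw, hadj⟩ := M.adjXW i j
    refine ⟨w, hw, ?_⟩
    obtain ⟨a, rfl, ha⟩ := hX x hx
    have hla := hlo' _ hx
    have hha := hhi' _ hx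
    have hlo2 : 2 ≤ pos lo := by
      obtain ⟨c, rfl, hc⟩ := hX lo hlo
      simp only [pos]
      split_ifs <;> omega
    have hhim := hposle hi hhi
    by_cases htw : thick w
    · have h02 : a.1 = 0 ∨ a.1 = 2 := by
        rcases w with b | b | b
        · simp only [thick] at htw
          rw [adj_hh, cyc_iff (by omega)] at hadj
          omega
        · exact absurd htw (by simp [thick])
        · rw [adj_hd] at hadj
          omega
      rcases h02 with h | h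
      · right; left
        refine ⟨htw, ?_⟩
        have : pos (.inl a : Vx m k) = m := by simp [pos, h]
        omega
      · left; left
        refine ⟨htw, ?_⟩
        have : pos (.inl a : Vx m k) = 2 := by simp [pos, h]
        omega
    · have hb : ∃ b : Fin m, w = .inl b ∧ b.1 ≠ 1 := by
        rcases w with b | b | b
        · exact ⟨b, rfl, htw⟩
        · exact (no_C_in_W M j b hw).elim
        · exact absurd trivial htw
      obtain ⟨b, rfl, hb1⟩ := hb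
      have h3 := pos_adj (k := k) hm a b ha hb1 hadj
      have hnot : (.inl b : Vx m k) ∉ X i := fun h => M.disjXW i j _ h hw
      have h4 : ¬ (pos lo ≤ pos (.inl b : Vx m k) ∧ pos (.inl b : Vx m k) ≤ pos hi) :=
        fun h => hnot (hint b hb1 h.1 h.2)
      rcases h3 with h3 | h3
      · right; right
        exact ⟨htw, ⟨b, rfl, hb1⟩, by omega⟩
      · left; right
        exact ⟨htw, ⟨b, rfl, hb1⟩, by omega⟩
  choose w hw hside using hcontact
  have hlo2 : 2 ≤ pos lo := by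
    obtain ⟨c, rfl, hc⟩ := hX lo hlo
    simp only [pos]
    split_ifs <;> omega
  have hhim := hposle hi hhi
  have hpw : ∀ b : Fin m, b.1 ≠ 1 → 2 ≤ pos (.inl b : Vx m k) ∧ pos (.inl b : Vx m k) ≤ m := by
    intro b hb
    have := b.2
    simp only [pos]
    split_ifs <;> omega
  have hconf : ∀ p q : Fin 3, p ≠ q →
      ¬ (((thick (w p) ∧ pos lo = 2) ∨ (¬ thick (w p) ∧ (∃ b : Fin m, w p = .inl b ∧ b.1 ≠ 1) ∧
          pos (w p) + 1 = pos lo)) ∧
        ((thick (w q) ∧ pos lo = 2) ∨ (¬ thick (w q) ∧ (∃ b : Fin m, w q = .inl b ∧ b.1 ≠ 1) ∧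
          pos (w q) + 1 = pos lo))) ∧
      ¬ (((thick (w p) ∧ pos hi = m) ∨ (¬ thick (w p) ∧ (∃ b : Fin m, w p = .inl b ∧ b.1 ≠ 1) ∧
          pos (w p) = pos hi + 1)) ∧
        ((thick (w q) ∧ pos hi = m) ∨ (¬ thick (w q) ∧ (∃ b : Fin m, w q = .inl b ∧ b.1 ≠ 1) ∧
          pos (w q) = pos hi + 1))) := by
    intro p q hpq
    have hn := M.nadjW p q hpq _ (hw p) _ (hw q)
    constructor
    · rintro ⟨⟨h1, h1'⟩ | ⟨h1, ⟨b, hb, hb1⟩, h1'⟩, ⟨h2, h2'⟩ | ⟨h2, ⟨c, hc, hc1⟩, h2'⟩⟩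
      · exact hn.1 (thick_adj h1 h2 hn.2)
      · rw [hc] at h2'
        have := hpw c hc1
        omega
      · rw [hb] at h1'
        have := hpw b hb1
        omega
      · rw [hb] at h1'
        rw [hc] at h2'
        exact hn.2 (by rw [hb, hc, pos_inj hm b c hb1 hc1 (by omega)])
    · rintro ⟨⟨h1, h1'⟩ | ⟨h1, ⟨b, hb, hb1⟩, h1'⟩, ⟨h2, h2'⟩ | ⟨h2, ⟨c, hc, hc1⟩, h2'⟩⟩
      · exact hn.1 (thick_adj h1 h2 hn.2)
      · rw [hc] at h2'
        have := hpw c hc1
        omega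
      · rw [hb] at h1'
        have := hpw b hb1
        omega
      · rw [hb] at h1'
        rw [hc] at h2'
        exact hn.2 (by rw [hb, hc, pos_inj hm b c hb1 hc1 (by omega)])
  have c01 := hconf 0 1 (by decide)
  have c02 := hconf 0 2 (by decide)
  have c12 := hconf 1 2 (by decide)
  rcases hside 0 with h0 | h0 <;> rcases hside 1 with h1 | h1 <;> rcases hside 2 with h2 | h2
  · exact c01.1 ⟨h0, h1⟩
  · exact c01.1 ⟨h0, h1⟩
  · exact c02.1 ⟨h0, h2⟩
  · exact c12.2 ⟨h1, h2⟩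
  · exact c12.1 ⟨h1, h2⟩
  · exact c02.2 ⟨h0, h2⟩
  · exact c01.2 ⟨h0, h1⟩
  · exact c01.2 ⟨h0, h1⟩

theorem no_model (hm : 4 ≤ m) (X : Fin 2 → Set (Vx m k)) (W : Fin 3 → Set (Vx m k))
    (M : Model (GG m k) X W) : False := by
  by_cases h0 : ∀ x ∈ X 0, ¬ thick x
  · exact thin hm M 0 h0
  · by_cases h1 : ∀ x ∈ X 1, ¬ thick x
    · exact thin hm M 1 h1
    · push Not at h0 h1
      obtain ⟨x, hx, hxt⟩ := h0
      obtain ⟨y, hy, hyt⟩ := h1
      have h := M.nadjX x hx y hy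
      exact h.1 (thick_adj hxt hyt h.2)

end

end Q109.MinSep
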