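import Pool.Agent.Q109.MinSep.K23

/-!
# Exponentially many minimal separators
-/

namespace Q109.MinSep

open SimpleGraph

/-- `S` separates `a` from `b` in `G` -/
def IsSep {V : Type} (G : SimpleGraph V) (a b : V) (S : Set V) : Prop :=
  ∃ (ha : a ∈ Sᶜ) (hb : b ∈ Sᶜ), ¬ (G.induce Sᶜ).Reachable ⟨a, ha⟩ ⟨b, hb⟩

/-- `S` is a minimal separator of `G` -/
def IsMinSep {V : Type} (G : SimpleGraph V) (S : Set V) : Prop :=
  ∃ a b, a ≠ b ∧ ¬ G.Adj a b ∧ IsSep G a b S ∧ ∀ T, T ⊆ S → IsSep G a b T → T = S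

section
variable {m k : ℕ}

/-- the separators -/
def sep (m k : ℕ) (J : Finset (Fin k)) : Set (Vx m k) := fun v => match v with
  | .inl i => i.1 ≤ 2
  | .inr (.inl i) => i ∉ J
  | .inr (.inr i) => i ∈ J

theorem sep_inj {J J' : Finset (Fin k)} (h : sep m k J = sep m k J') : J = J' := by
  ext i
  have : (.inr (.inr i) : Vx m k) ∈ sep m k J ↔ (.inr (.inr i) : Vx m k) ∈ sep m k J' := by
    rw [h]
  exact this

theorem isMinSep_sep (J : Finset (Fin k)) (i j : Fin k) (hi : i ∉ J) (hj : j ∈ J) :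
    IsMinSep (GG m k) (sep m k J) := by
  have hij : i ≠ j := fun h => hi (h ▸ hj)
  have ha : (.inr (.inr i) : Vx m k) ∈ (sep m k J)ᶜ := hi
  have hb : (.inr (.inl j) : Vx m k) ∈ (sep m k J)ᶜ := fun h => h hj
  refine ⟨.inr (.inr i), .inr (.inl j), by simp, ?_, ⟨ha, hb, ?_⟩, ?_⟩
  · rw [adj_dc]; exact hij
  · rintro ⟨p⟩
    have key : ∀ (x y : ((sep m k J)ᶜ : Set (Vx m k))),
        ((GG m k).induce (sep m k J)ᶜ).Walk x y → (∃ l, x.1 = .inr (.inr l)) →
        (∃ l, y.1 = .inr (.inr l)) := by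
      intro x y p
      induction p with
      | nil => intro h; exact h
      | @cons u v w hadj _ ih =>
        rintro ⟨l, hl⟩
        apply ih
        have hl' : l ∉ J := by
          intro h
          apply u.2
          rw [hl]; exact h
        have hadj' : (GG m k).Adj u.1 v.1 := hadj
        rw [hl] at hadj'
        obtain ⟨v, hv⟩ := v
        rcases v with a | a | a
        · exact absurd hadj' hv
        · have : l = a := hadj'
          subst this
          exact absurd hl' hv
        · exact ⟨a, rfl⟩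
    obtain ⟨l, hl⟩ := key _ _ p ⟨i, rfl⟩
    exact absurd hl (by simp)
  · intro T hT hsep
    apply Set.Subset.antisymm hT
    intro x hx
    by_contra hxT
    obtain ⟨ha', hb', hnr⟩ := hsep
    apply hnr
    have step : ∀ {a b : Vx m k} (ha : a ∈ Tᶜ) (hb : b ∈ Tᶜ), (GG m k).Adj a b →
        ((GG m k).induce Tᶜ).Reachable ⟨a, ha⟩ ⟨b, hb⟩ := by
      intro a b ha hb hab
      have : ((GG m k).induce Tᶜ).Adj ⟨a, ha⟩ ⟨b, hb⟩ := hab
      exact this.reachable
    have hout : ∀ v, v ∉ sep m k J → v ∈ Tᶜ := fun v hv h => hv (hT h)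
    rcases x with a | a | a
    · -- a cycle vertex
      exact (step ha' hxT (by rw [adj_dh]; exact hx)).trans (step hxT hb' trivial)
    · -- a vertex of `C` outside `J`
      have haJ : a ∉ J := hx
      have hd : (.inr (.inr a) : Vx m k) ∈ Tᶜ := hout _ haJ
      have h1 : ((GG m k).induce Tᶜ).Reachable ⟨.inr (.inr i), ha'⟩ ⟨.inr (.inr a), hd⟩ := by
        by_cases hia : i = a
        · subst hia; exact Reachable.refl _
        · exact step _ _ hia
      have hja : a ≠ j := fun h => haJ (h ▸ hj)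
      exact h1.trans ((step hd hxT rfl).trans (step hxT hb' hja))
    · -- a vertex of `D` inside `J`
      have haJ : a ∈ J := hx
      have hc : (.inr (.inl a) : Vx m k) ∈ Tᶜ := hout _ (fun h => h haJ)
      have h1 : ((GG m k).induce Tᶜ).Reachable ⟨.inr (.inl a), hc⟩ ⟨.inr (.inl j), hb'⟩ := by
        by_cases hia : a = j
        · subst hia; exact Reachable.refl _
        · exact step _ _ hia
      have hia : i ≠ a := fun h => hi (h ▸ haJ)
      exact ((step ha' hxT hia).trans (step hxT hc rfl)).trans h1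

/-- the number of minimal separators is at least `2 ^ k - 2` -/
theorem many : 2 ^ k - 2 ≤ {S | IsMinSep (GG m k) S}.ncard := by
  classical
  have hsub : (((Finset.univ.filter (fun J : Finset (Fin k) => J ≠ ∅ ∧ J ≠ Finset.univ)).image
      (sep m k) : Finset (Set (Vx m k))) : Set (Set (Vx m k))) ⊆
        {S | IsMinSep (GG m k) S} := by
    intro S hS
    simp only [Finset.coe_image, Finset.coe_filter, Finset.mem_univ, true_and,
      Set.mem_image] at hS
    obtain ⟨J, ⟨h1, h2⟩, rfl⟩ := hS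
    obtain ⟨j, hj⟩ := Finset.nonempty_iff_ne_empty.mpr h1
    obtain ⟨i, hi⟩ : ∃ i, i ∉ J := by
      by_contra hcon
      push Not at hcon
      exact h2 (Finset.eq_univ_iff_forall.mpr hcon)
    exact isMinSep_sep J i j hi hj
  have hfin : {S | IsMinSep (GG m k) S}.Finite := Set.toFinite _
  refine le_trans ?_ (Set.ncard_le_ncard hsub hfin)
  rw [Set.ncard_coe_finset, Finset.card_image_of_injective _ (fun J J' h => sep_inj h)]
  have h1 : (Finset.univ.filter (fun J : Finset (Fin k) => J ≠ ∅ ∧ J ≠ Finset.univ)) =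
      (Finset.univ \ {∅, Finset.univ} : Finset (Finset (Fin k))) := by
    ext J
    simp
  rw [h1]
  have h2 := Finset.le_card_sdiff ({∅, Finset.univ} : Finset (Finset (Fin k))) Finset.univ
  have h3 : ({∅, Finset.univ} : Finset (Finset (Fin k))).card ≤ 2 := Finset.card_le_two
  have h4 : (Finset.univ : Finset (Finset (Fin k))).card = 2 ^ k := by simp
  rw [h4] at h2
  omega

end

open Filter Topology in
/-- polynomials are beaten -/
theorem poly_small (p : Polynomial ℝ) (m : ℕ) :
    Tendsto (fun k : ℕ => p.eval ((m + 2 * k : ℕ) : ℝ) / 2 ^ k) atTop (𝓝 0) := by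
  induction p using Polynomial.induction_on' with
  | add p q hp hq =>
    have := hp.add hq
    simp only [add_zero] at this
    refine this.congr (fun k => ?_)
    rw [Polynomial.eval_add, add_div]
  | monomial n a =>
    have h0 : (1 : ℝ) < Real.sqrt 2 := by
      rw [Real.lt_sqrt (by norm_num)]
      norm_num
    have h1 := tendsto_pow_const_div_const_pow_of_one_lt n h0
    have h2 : Tendsto (fun k : ℕ => m + 2 * k) atTop atTop :=
      tendsto_atTop_mono (fun k => by omega : ∀ k, k ≤ m + 2 * k) tendsto_id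
    have h3 := h1.comp h2
    have h4 := h3.const_mul (a * (Real.sqrt 2) ^ m)
    rw [mul_zero] at h4
    refine h4.congr (fun k => ?_)
    simp only [Function.comp, Polynomial.eval_monomial]
    have hs : (Real.sqrt 2) ^ (m + 2 * k) = (Real.sqrt 2) ^ m * 2 ^ k := by
      rw [pow_add, pow_mul, Real.sq_sqrt (by norm_num)]
    rw [hs]
    have hne : (Real.sqrt 2) ^ m ≠ 0 := by positivity
    have hne2 : (2 : ℝ) ^ k ≠ 0 := by positivity
    field_simp

theorem poly_beaten (p : Polynomial ℝ) (m : ℕ) :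
    ∃ k : ℕ, 2 ≤ k ∧ p.eval ((m + 2 * k : ℕ) : ℝ) < ((2 ^ k - 2 : ℕ) : ℝ) := by
  have h := poly_small p m
  have h1 := (h.eventually (gt_mem_nhds (show (0 : ℝ) < 1 / 2 by norm_num))).and
    (Filter.eventually_ge_atTop 2)
  obtain ⟨k, hk1, hk2⟩ := h1.exists
  refine ⟨k, hk2, ?_⟩
  have hpow : (4 : ℝ) ≤ 2 ^ k := by
    calc (4 : ℝ) = 2 ^ 2 := by norm_num
      _ ≤ 2 ^ k := pow_le_pow_right₀ (by norm_num) hk2
  have hpos : (0 : ℝ) < 2 ^ k := by positivity
  rw [div_lt_iff₀ hpos] at hk1
  have hnat : 2 ≤ 2 ^ k := by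
    calc 2 = 2 ^ 1 := by norm_num
      _ ≤ 2 ^ k := Nat.pow_le_pow_right (by norm_num) (by omega)
  rw [Nat.cast_sub hnat]
  push_cast
  push_cast at hk1
  linarith

end Q109.MinSep
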